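import Pool.Agent.Y579.HN.Reduce
import Pool.Agent.Y579.HN.Pos

/-!
# Ramsey's theorem for pairs is not Weihrauch reducible to Hindman's theorem for sums of exactly
`n` elements and two colours, for any `n`

Not even if the number `n` may depend on the instance, and neither the stable Ramsey theorem for
pairs nor the pigeonhole principle for three colours is reducible, by any continuous functionals.

Idea: let `e` be an idempotent ultrafilter on the integers.  A solution for the instance `s 0 0 ...`
is sought in the form `u / n + (elements near e)`, `u` near `e`; if the limit colouring of later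
phases had the same value at a multiple of `n`, along any multiple `l e` of the idempotent, some
committed set could be extended in a wrong phase.  So with two colours the limit colourings of the
first, second and third phase alternate along all multiples of `e` at the relevant points, and a
committed set of the first phase extends in the third one, in a direction `u / n + d`, `d` near `e`,
whose multiples `d, 2 d, ..., n d` appear in the sums.
-/

set_option autoImplicit false

namespace Pool.Agent.Results.MP_db6017_lc.EveryNumberOfSummands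

open Pool.Agent.H190R3.Wei Pool.Agent.H190R3.HT Pool.Agent.Y579.HN

/-- A problem: its instances, which are points of Baire space, and the solutions of each of
them. -/
structure Problem where
  /-- the set of instances -/
  inst : Set (ℕ → ℕ)
  /-- the set of solutions of an instance -/
  sol : (ℕ → ℕ) → Set (ℕ → ℕ)

/-- `z` is the characteristic function of an infinite set of natural numbers. -/
def IsInfiniteSet (z : ℕ → ℕ) : Prop := (∀ n, z n < 2) ∧ {n | z n = 1}.Infinite

/-- Ramsey's theorem for pairs and two colours: the colour of the pair `a < b` under the instance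
`x` is `x (Nat.pair a b)`; the solutions are the infinite homogeneous sets. -/
def RT22 : Problem where
  inst := {x | ∀ n, x n < 2}
  sol x := {z | IsInfiniteSet z ∧ ∃ i, ∀ a b, a < b → z a = 1 → z b = 1 → x (Nat.pair a b) = i}

/-- Stable Ramsey's theorem for pairs and two colours. -/
def SRT22 : Problem where
  inst := {x | (∀ n, x n < 2) ∧ ∀ a, ∃ i m, ∀ b, m ≤ b → x (Nat.pair a b) = i}
  sol x := {z | IsInfiniteSet z ∧ ∃ i, ∀ a b, a < b → z a = 1 → z b = 1 → x (Nat.pair a b) = i}

/-- The pigeonhole principle for `k` colours: the solutions of a colouring of the natural numbers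
are the infinite sets on which it is constant. -/
def RT1 (k : ℕ) : Problem where
  inst := {x | ∀ n, x n < k}
  sol x := {z | IsInfiniteSet z ∧ ∃ i, ∀ a, z a = 1 → x a = i}

/-- Hindman's theorem for sums of exactly `n` elements and two colours: the solutions of a
two-colouring `x` of the natural numbers are the infinite sets `H` such that `x` is constant on the
sums of `n` distinct elements of `H`. -/
def HT (n : ℕ) : Problem where
  inst := {x | ∀ m, x m < 2}
  sol x := {z | IsInfiniteSet z ∧
    ∃ i, ∀ T : Finset ℕ, T.card = n → (∀ a ∈ T, z a = 1) → x (∑ a ∈ T, a) = i}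

/-- The same, where the number of summands is a part of the instance: `x 0 ≥ 1` is the number of
summands, the colouring is `m ↦ x (m + 1)`. -/
def HTany : Problem where
  inst := {x | 1 ≤ x 0 ∧ ∀ m, x (m + 1) < 2}
  sol x := {z | IsInfiniteSet z ∧
    ∃ i, ∀ T : Finset ℕ, T.card = x 0 → (∀ a ∈ T, z a = 1) → x (∑ a ∈ T, a + 1) = i}

/-- The functionals given by `φ` and `ψ` reduce `P` to `Q`: for every instance `x` of `P`, `Φ(x)` is
an instance of `Q`, and for every solution `z` of `Φ(x)`, `Ψ(x ⊕ z)` is a solution of `x`. -/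
def Reduces (φ ψ : List ℕ → List ℕ) (P Q : Problem) : Prop :=
  ∀ x ∈ P.inst, ∃ y ∈ Q.inst, Maps φ x y ∧
    ∀ z ∈ Q.sol y, ∃ w ∈ P.sol x, Maps ψ (pair x z) w

/-- Weihrauch reducibility: the functionals are given by computable monotone word functions. -/
def WeihrauchLE (P Q : Problem) : Prop :=
  ∃ φ ψ : List ℕ → List ℕ, IsMachine φ ∧ IsMachine ψ ∧ Reduces φ ψ P Q

/-- Continuous Weihrauch reducibility: arbitrary word functions. -/
def ContinuousLE (P Q : Problem) : Prop := ∃ φ ψ : List ℕ → List ℕ, Reduces φ ψ P Q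

theorem not_RT1 : ¬ ContinuousLE (RT1 3) HTany := by
  rintro ⟨φ, ψ, h⟩
  refine Pool.Agent.Y579.HN.no_machine (fun f n => (f n : ℕ))
    (fun f n => ⟨n, fun f' hf k hk => by rw [hf k hk]⟩) φ ψ ?_
  intro f _
  obtain ⟨y, hy, h1, h2⟩ := h (fun n => (f n : ℕ)) (fun n => (f n).isLt)
  refine ⟨y, hy, h1, fun z hz1 hz2 hz3 => ?_⟩
  obtain ⟨w, ⟨hw1, i, hw2⟩, hw3⟩ := h2 z ⟨⟨hz1, hz2⟩, hz3⟩
  refine ⟨w, hw3, hw1.2, fun a b ha hb => ?_⟩
  apply Fin.ext
  have e1 : (f a : ℕ) = i := hw2 a ha
  have e2 : (f b : ℕ) = i := hw2 b hb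
  rw [e1, e2]

theorem not_SRT22 : ¬ ContinuousLE SRT22 HTany := by
  classical
  rintro ⟨φ, ψ, h⟩
  refine Pool.Agent.Y579.HN.no_machine
    (fun f n => if f (Nat.unpair n).1 = f (Nat.unpair n).2 then 1 else 0)
    (fun f n => ⟨n, fun f' hf k hk => ?_⟩) φ ψ ?_
  · have h1 := Nat.unpair_left_le k
    have h2 := Nat.unpair_right_le k
    show (if f' (Nat.unpair k).1 = f' (Nat.unpair k).2 then 1 else 0) =
      (if f (Nat.unpair k).1 = f (Nat.unpair k).2 then 1 else 0)
    rw [hf _ (by omega), hf _ (by omega)]
  · intro f hf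
    obtain ⟨c, n, hc⟩ := hf
    obtain ⟨y, hy, h1, h2⟩ := h
      (fun n => if f (Nat.unpair n).1 = f (Nat.unpair n).2 then 1 else 0) ⟨fun n => by
        beta_reduce
        split_ifs <;> omega, fun a => ⟨if f a = c then 1 else 0, n, fun b hb => by
        beta_reduce
        rw [Nat.unpair_pair, hc b hb]⟩⟩
    refine ⟨y, hy, h1, fun z hz1 hz2 hz3 => ?_⟩
    obtain ⟨w, ⟨hw1, i, hw2⟩, hw3⟩ := h2 z ⟨⟨hz1, hz2⟩, hz3⟩
    refine ⟨w, hw3, hw1.2, ?_⟩
    have hw4 : ∀ a b, a < b → w a = 1 → w b = 1 → (if f a = f b then 1 else 0) = i := by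
      intro a b hab ha hb
      have := hw2 a b hab ha hb
      beta_reduce at this
      rw [Nat.unpair_pair] at this
      exact this
    have key : ∀ a b, a < b → w a = 1 → w b = 1 → f a = f b := by
      intro a b hab ha hb
      by_contra hne
      have hi := hw4 a b hab ha hb
      rw [if_neg hne] at hi
      have hinj : Set.InjOn f {n | w n = 1} := by
        intro s hs t ht hst
        by_contra hne'
        rcases lt_or_gt_of_ne hne' with hlt | hlt
        · have := hw4 s t hlt hs ht
          rw [if_pos hst] at this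
          omega
        · have := hw4 t s hlt ht hs
          rw [if_pos hst.symm] at this
          omega
      exact hw1.2 (Set.Finite.of_finite_image (Set.toFinite _) hinj)
    intro a b ha hb
    rcases lt_trichotomy a b with hlt | heq | hlt
    · exact key a b hlt ha hb
    · rw [heq]
    · exact (key b a hlt hb ha).symm

/-- A fixed number of summands is a special case. -/
theorem lift {P : Problem} {n : ℕ} (hn : 1 ≤ n) (h : ContinuousLE P (HT n)) :
    ContinuousLE P HTany := by
  obtain ⟨φ, ψ, h⟩ := h
  refine ⟨fun l => n :: φ l, ψ, fun x hx => ?_⟩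
  obtain ⟨y, hy, h1, h2⟩ := h x hx
  refine ⟨tag n y, ⟨hn, hy⟩, maps_tag h1 n, fun z hz => h2 z hz⟩

/-- The pigeonhole principles become weaker when the number of colours decreases. -/
theorem mono_RT1 {k k' : ℕ} (h : k ≤ k') {φ ψ : List ℕ → List ℕ} {Q : Problem}
    (hr : Reduces φ ψ (RT1 k') Q) : Reduces φ ψ (RT1 k) Q :=
  fun x hx => hr x fun n => (hx n).trans_le h

/-- Two colours are reducible: take the sums. -/
theorem pos {n : ℕ} (hn : 1 ≤ n) : Reduces (fun σ => σ) (psi n) (RT1 2) (HT n) := by
  intro x hx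
  refine ⟨x, hx, maps_id x, fun z hz => ?_⟩
  obtain ⟨⟨h1, h2⟩, i, h3⟩ := hz
  refine ⟨_, ⟨⟨fun m => wv_lt _ _ m, inf_sums h2 hn⟩, i, fun m hm => ?_⟩, maps_psi n x z⟩
  obtain ⟨T, h4, h5, h6⟩ := (wv_eq_one _ _ _).1 hm
  rw [← h6]
  exact h3 T h5 fun a ha => by simpa using h4 a ha

/-- For no `n ≥ 1` is Ramsey's theorem for pairs (two colours) Weihrauch reducible to Hindman's
theorem for sums of exactly `n` elements (two colours), and its stable form is not reducible by
continuous functionals; the pigeonhole principle for `k` colours is reducible, by computable or by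
continuous functionals, exactly if `k ≤ 2`.  The negative statements remain true if the number of
summands may depend on the instance. -/
theorem result :
    (∀ n, 1 ≤ n → ¬ WeihrauchLE RT22 (HT n) ∧ ¬ ContinuousLE SRT22 (HT n) ∧
      ∀ k, (WeihrauchLE (RT1 k) (HT n) ↔ k ≤ 2) ∧ (ContinuousLE (RT1 k) (HT n) ↔ k ≤ 2)) ∧
    ¬ ContinuousLE SRT22 HTany ∧ ¬ ContinuousLE (RT1 3) HTany := by
  refine ⟨fun n hn => ?_, not_SRT22, not_RT1⟩
  have h1 : ∀ k, ContinuousLE (RT1 k) (HT n) → k ≤ 2 := by
    rintro k ⟨φ, ψ, h⟩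
    by_contra hk
    exact not_RT1 (lift hn ⟨φ, ψ, mono_RT1 (by omega) h⟩)
  have h2 : ∀ k, k ≤ 2 → WeihrauchLE (RT1 k) (HT n) := fun k hk =>
    ⟨_, _, isMachine_id, machine_psi n, mono_RT1 hk (pos hn)⟩
  have h3 : ∀ P, WeihrauchLE P (HT n) → ContinuousLE P (HT n) := by
    rintro P ⟨φ, ψ, -, -, h⟩
    exact ⟨φ, ψ, h⟩
  refine ⟨?_, fun h => not_SRT22 (lift hn h), fun k => ⟨⟨fun h => h1 k (h3 _ h), h2 k⟩,
    ⟨h1 k, fun h => h3 _ (h2 k h)⟩⟩⟩
  rintro ⟨φ, ψ, -, -, h⟩
  exact not_SRT22 (lift hn ⟨φ, ψ, fun x hx => h x hx.1⟩)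

end Pool.Agent.Results.MP_db6017_lc.EveryNumberOfSummands
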